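import Pool.Agent.Lib_helper90.MOD.LayZ

/-!
# The translation `D ↦ D + y A` and the functions of line 1
-/

set_option autoImplicit false
set_option linter.unusedSectionVars false

open scoped BigOperators ComplexOrder Kronecker MatrixOrder Topology
open MeasureTheory Set Matrix Filter

namespace Pool.Agent.RC.TR6

open INE LAY

variable {ι : Type} [Fintype ι] [DecidableEq ι]

/-- translation of the argument of `fx` -/
theorem fx_shift (p : ℝ) (A D : Matrix ι ι ℂ) (y s : ℝ) :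
    fx p A (D + ((y : ℝ) : ℂ) • A) s + fx p A (D + ((-y : ℝ) : ℂ) • A) s =
      fx p A D (s - y) + fx p A D (s + y) := by
  have h1 : D + ((y : ℝ) : ℂ) • A - (s : ℂ) • A = D - ((s - y : ℝ) : ℂ) • A := by
    push_cast
    rw [sub_smul]
    abel
  have h2 : -(D + ((y : ℝ) : ℂ) • A) - (s : ℂ) • A = -D - ((s + y : ℝ) : ℂ) • A := by
    push_cast
    rw [add_smul]
    abel
  have h3 : D + ((-y : ℝ) : ℂ) • A - (s : ℂ) • A = D - ((s + y : ℝ) : ℂ) • A := by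
    push_cast
    rw [add_smul, neg_smul]
    abel
  have h4 : -(D + ((-y : ℝ) : ℂ) • A) - (s : ℂ) • A = -D - ((s - y : ℝ) : ℂ) • A := by
    push_cast
    rw [sub_smul, neg_smul]
    abel
  unfold fx
  rw [h1, h2, h3, h4]
  ring

/-- the symmetrised sixth moment -/
noncomputable def SS (p : ℝ) (A D : Matrix ι ι ℂ) (y : ℝ) : ℝ :=
  In p A (D + ((y : ℝ) : ℂ) • A) 6 + In p A (D + ((-y : ℝ) : ℂ) • A) 6

theorem shift_herm {A D : Matrix ι ι ℂ} (hA : A.IsHermitian) (hD : D.IsHermitian) (y : ℝ) :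
    (D + ((y : ℝ) : ℂ) • A).IsHermitian :=
  hD.add (isHermitian_real_smul y hA)

theorem SS_eq {p : ℝ} (h5 : 5 < p) (h6 : p < 6) {A D : Matrix ι ι ℂ} (hA : A.PosDef)
    (hD : D.IsHermitian) (y : ℝ) :
    SS p A D y = 6 / p * ∫ s in Ioi (0 : ℝ), s ^ (5 - p) * (fx p A D (s - y) + fx p A D (s + y)) := by
  have hp : 0 < p := by linarith
  have e6 : Even (6 : ℕ) := by decide
  have h6' : p < ((6 : ℕ) : ℝ) := by push_cast; exact h6
  obtain ⟨i1, q1⟩ := In_fx hA (shift_herm hA.isHermitian hD y) hp e6 h6'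
  obtain ⟨i2, q2⟩ := In_fx hA (shift_herm hA.isHermitian hD (-y)) hp e6 h6'
  have ee : (((6 : ℕ) : ℝ) - 1 - p) = 5 - p := by push_cast; ring
  rw [ee] at i1 q1 i2 q2
  have hsum : ∫ s in Ioi (0 : ℝ), s ^ (5 - p) * (fx p A D (s - y) + fx p A D (s + y)) =
      (∫ s in Ioi (0 : ℝ), s ^ (5 - p) * fx p A (D + ((y : ℝ) : ℂ) • A) s) +
      ∫ s in Ioi (0 : ℝ), s ^ (5 - p) * fx p A (D + ((-y : ℝ) : ℂ) • A) s := by
    rw [← integral_add i1 i2]
    apply setIntegral_congr_fun measurableSet_Ioi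
    intro s _
    show s ^ (5 - p) * (fx p A D (s - y) + fx p A D (s + y)) = _
    rw [← fx_shift]
    ring
  rw [hsum]
  unfold SS
  have e6r : ((6 : ℕ) : ℝ) = 6 := by norm_num
  rw [e6r] at q1 q2
  field_simp
  linarith

/-- `fx` through `tau` for every `s < 1` -/
theorem fx_tau {p : ℝ} {A D : Matrix ι ι ℂ} (hA : A.IsHermitian) (hD : D.IsHermitian) {s : ℝ}
    (hs : s < 1) : fx p A D s = (1 - s) ^ p * tau p A D (s / (1 - s)) := by
  have h1 : (0 : ℝ) < 1 - s := by linarith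
  have h1' : ((1 - s : ℝ) : ℂ) ≠ 0 := by exact_mod_cast h1.ne'
  have hc : ((1 - s : ℝ) : ℂ) * ((s / (1 - s) : ℝ) : ℂ) = (s : ℂ) := by
    rw [← Complex.ofReal_mul, mul_div_cancel₀ _ h1.ne']
  have k1 : D - (s : ℂ) • A =
      ((1 - s : ℝ) : ℂ) • (D - ((s / (1 - s) : ℝ) : ℂ) • (A - D)) := by
    rw [smul_sub, smul_smul, hc]
    push_cast
    rw [sub_smul, one_smul, smul_sub]
    abel
  have k2 : -D - (s : ℂ) • A =
      ((1 - s : ℝ) : ℂ) • (-D - ((s / (1 - s) : ℝ) : ℂ) • (A + D)) := by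
    rw [smul_sub, smul_smul, hc]
    push_cast
    rw [sub_smul, one_smul, smul_add, smul_neg]
    abel
  have g1 : (D - ((s / (1 - s) : ℝ) : ℂ) • (A - D)).IsHermitian :=
    hD.sub (isHermitian_real_smul _ (hA.sub hD))
  have g2 : (-D - ((s / (1 - s) : ℝ) : ℂ) • (A + D)).IsHermitian :=
    hD.neg.sub (isHermitian_real_smul _ (hA.add hD))
  unfold fx tau
  rw [k1, k2, trF_pp_smul g1 h1.le, trF_pp_smul g2 h1.le, mul_add]

/-- the model function -/
noncomputable def gm (p t0 t1 t2 t3 s : ℝ) : ℝ :=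
  t0 * (1 - s) ^ p + t1 * s * (1 - s) ^ (p - 1) + t2 * s ^ 2 * (1 - s) ^ (p - 2) +
    t3 * s ^ 3 * (1 - s) ^ (p - 3)

theorem gm_eq {p t0 t1 t2 t3 s : ℝ} (hs : s < 1) :
    gm p t0 t1 t2 t3 s = (1 - s) ^ p * (t0 + t1 * (s / (1 - s)) + t2 * (s / (1 - s)) ^ 2 +
      t3 * (s / (1 - s)) ^ 3) := by
  have h1 : (0 : ℝ) < 1 - s := by linarith
  have e : ∀ k : ℕ, (1 - s) ^ (p - (k : ℝ)) = (1 - s) ^ p / (1 - s) ^ k := by
    intro k
    rw [Real.rpow_sub h1, Real.rpow_natCast]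
  have e1 := e 1
  have e2 := e 2
  have e3 := e 3
  push_cast at e1 e2 e3
  unfold gm
  rw [e1, e2, e3]
  have := h1.ne'
  field_simp

theorem tone_to_fx {p : ℝ} (h5 : 5 < p) {A D : Matrix ι ι ℂ} (h : IsPair A D)
    {c2 c3 C δ : ℝ} (hC : 0 ≤ C)
    (hlow : ∀ z : ℝ, 0 ≤ z → tau p A D 0 - eta p A D 0 * z + c2 * z ^ 2 - c3 * z ^ 3 ≤
      tau p A D z)
    (hloc : ∀ z : ℝ, |z| ≤ δ → |tau p A D z - (tau p A D 0 - eta p A D 0 * z + c2 * z ^ 2 -
      c3 * z ^ 3)| ≤ C * z ^ 4) :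
    (∀ s : ℝ, 0 < s → s < 1 → gm p (tau p A D 0) (-eta p A D 0) c2 (-c3) s ≤ fx p A D s) ∧
    (∀ s : ℝ, |s| ≤ min (1 / 2) (δ / 2) →
      |fx p A D s - gm p (tau p A D 0) (-eta p A D 0) c2 (-c3) s| ≤
        (2 ^ p * (C * 16)) * s ^ 4) := by
  have hA := h.pos.isHermitian
  have hD := h.herm
  constructor
  · intro s h0 h1
    have h1' : (0 : ℝ) < 1 - s := by linarith
    rw [gm_eq h1, fx_tau hA hD h1]
    apply mul_le_mul_of_nonneg_left _ (Real.rpow_nonneg h1'.le _)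
    have := hlow (s / (1 - s)) (by positivity)
    linarith
  · intro s hs
    have hs1 : |s| ≤ 1 / 2 := hs.trans (min_le_left _ _)
    have hs2 : |s| ≤ δ / 2 := hs.trans (min_le_right _ _)
    have hb := abs_le.1 hs1
    have h1 : s < 1 := by linarith [hb.2]
    have h1' : (0 : ℝ) < 1 - s := by linarith
    have h2 : (1 / 2 : ℝ) ≤ 1 - s := by linarith [hb.2]
    have h3 : 1 - s ≤ 2 := by linarith [hb.1]
    have hz : |s / (1 - s)| ≤ 2 * |s| := by
      rw [abs_div, abs_of_pos h1', div_le_iff₀ h1']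
      nlinarith [abs_nonneg s]
    have hzδ : |s / (1 - s)| ≤ δ := by linarith
    have key := hloc _ hzδ
    rw [gm_eq h1, fx_tau hA hD h1, ← mul_sub, abs_mul, abs_of_nonneg (Real.rpow_nonneg h1'.le _)]
    have hz4 : (s / (1 - s)) ^ 4 ≤ 16 * s ^ 4 := by
      have : |s / (1 - s)| ^ 4 ≤ (2 * |s|) ^ 4 := by gcongr
      have e1 : |s / (1 - s)| ^ 4 = (s / (1 - s)) ^ 4 := by
        rw [← abs_pow]; exact abs_of_nonneg (by positivity)
      have e2 : (2 * |s|) ^ 4 = 16 * s ^ 4 := by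
        rw [mul_pow, ← abs_pow, abs_of_nonneg (by positivity : (0 : ℝ) ≤ s ^ 4)]; norm_num
      rw [e1, e2] at this
      exact this
    have hp2 : (1 - s) ^ p ≤ 2 ^ p := Real.rpow_le_rpow h1'.le h3 (by linarith)
    have e3 : tau p A D 0 + -eta p A D 0 * (s / (1 - s)) + c2 * (s / (1 - s)) ^ 2 +
        -c3 * (s / (1 - s)) ^ 3 = tau p A D 0 - eta p A D 0 * (s / (1 - s)) +
        c2 * (s / (1 - s)) ^ 2 - c3 * (s / (1 - s)) ^ 3 := by ring
    rw [e3]
    calc (1 - s) ^ p * |tau p A D (s / (1 - s)) - (tau p A D 0 - eta p A D 0 * (s / (1 - s)) +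
          c2 * (s / (1 - s)) ^ 2 - c3 * (s / (1 - s)) ^ 3)|
        ≤ 2 ^ p * (C * (16 * s ^ 4)) := by
          apply mul_le_mul hp2 _ (abs_nonneg _) (by positivity)
          exact key.trans (mul_le_mul_of_nonneg_left hz4 hC)
      _ = _ := by ring

end Pool.Agent.RC.TR6
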