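import Pool.Agent.Lib_helper94.G56.Sh
import Pool.Agent.Lib_helper64.G56.GSide
import Pool.Agent.Lib_helper64.G56.Feyn6
import Pool.Agent.Lib_helper54.GC56.InF
import Pool.Agent.Lib_helper77.GC56.Glue

/-!
# The lower bound of the second order term, `p ∈ (5,6)`
-/

set_option autoImplicit false
set_option linter.unusedSectionVars false

open scoped BigOperators ComplexOrder Kronecker MatrixOrder Topology
open MeasureTheory Set Matrix Filter

namespace Pool.Agent.RC.TR6

open INE LAY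
open Pool.Agent.Lib_helper94.G56 (Wh wh_low sh_sum s_comb)
open Pool.Agent.Lib_helper64.G56 (bb bb_bet bb_pos gside gm_continuous gm_zero)

variable {ι : Type} [Fintype ι] [DecidableEq ι]

theorem dg_posDef {a : ι → ℝ} (h : (dg a).PosDef) (i : ι) : 0 < a i := by
  have := h.diag_pos (i := i)
  unfold dg at this
  rw [Matrix.diagonal_apply_eq] at this
  exact_mod_cast (Complex.lt_def.1 this).1

theorem gm_gm {p t0 t1 t2 t3 s : ℝ} (hs : s < 1) :
    Pool.Agent.Lib_helper64.G56.gm p t0 t1 t2 t3 s = gm p t0 t1 t2 t3 s := by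
  have h : max (1 - s) 0 = 1 - s := max_eq_left (by linarith)
  unfold Pool.Agent.Lib_helper64.G56.gm gm
  rw [h]

theorem SS_SS (p : ℝ) (A D : Matrix ι ι ℂ) (y : ℝ) :
    Pool.Agent.Lib_helper94.G56.SS p A D y =
      In p A (D + (y : ℂ) • A) 6 + In p A (D - (y : ℂ) • A) 6 := rfl

theorem b56 {p : ℝ} (h5 : 5 < p) (h6 : p < 6) {a : ι → ℝ} {D : Matrix ι ι ℂ}
    (h : IsPair (dg a) D) {c2 c3 C δ : ℝ} (hc3 : 0 ≤ c3) (hC : 0 ≤ C) (hδ : 0 < δ)
    (hlow : ∀ z : ℝ, 0 ≤ z → tau p (dg a) D 0 - eta p (dg a) D 0 * z + c2 * z ^ 2 -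
      c3 * z ^ 3 ≤ tau p (dg a) D z)
    (hloc : ∀ z : ℝ, |z| ≤ δ → |tau p (dg a) D z - (tau p (dg a) D 0 -
      eta p (dg a) D 0 * z + c2 * z ^ 2 - c3 * z ^ 3)| ≤ C * z ^ 4) :
    tau p (dg a) D 0 + (p - 2) / p * eta p (dg a) D 0 +
      (p - 2) * (p - 3) / (2 * p * (p - 1)) * (2 * c2) ≤
      ∑ i, ∑ j, ‖D i j‖ ^ 2 * hk p (a i) (a j) := by
  have ha := dg_posDef h.pos
  have hp0 : 0 < p := by linarith
  set t0 := tau p (dg a) D 0 with ht0
  set e := eta p (dg a) D 0 with he
  set M := ∑ i, ∑ j, ‖D i j‖ ^ 2 * hk p (a i) (a j) with hM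
  set T := t0 - (p - 2) / p * (-e) + (p - 2) * (p - 3) / (p * (p - 1)) * c2 -
        (p - 3) * (p - 4) / (p * (p - 1)) * (-c3) with hT
  set F := fx p (dg a) D with hF
  set g := Pool.Agent.Lib_helper64.G56.gm p t0 (-e) c2 (-c3) with hg
  obtain ⟨hge, hl⟩ := tone_to_fx h5 h hC hlow hloc
  set B := bb p 0 with hB
  have hB0 : 0 < B := bb_pos h5 h6 (by norm_num)
  set J := In p (dg a) (dg a) 6 with hJ
  set K := 2 ^ p * (C * 16) with hK
  have hK0 : 0 ≤ K := by positivity
  set δ' := min (1 / 2) (δ / 2) with hδ'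
  have hδ0 : 0 < δ' := lt_min (by norm_num) (by linarith)
  -- the inequality for every small step
  have main : ∀ y : ℝ, 0 < y → 2 * y ≤ δ' → y < 1 / 2 →
      0 ≤ 360 * B * (M - T) + (20 * p * J - 120 * B * (t0 - (-e) + c2 - (-c3))) * y ^ 2 +
        256 * K * ((4 * y) ^ (6 - p) / (6 - p)) := by
    intro y hy hyδ hy2
    obtain ⟨iF, eF⟩ := s_comb h5 h6 h hy
    have hgc : Continuous g := gm_continuous h5 t0 (-e) c2 (-c3)
    have hg1 : ∀ s, 1 ≤ s → g s = 0 := fun s hs => gm_zero h5 t0 (-e) c2 (-c3) hs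
    obtain ⟨iG, eG⟩ := sh_sum (q := 5 - p) (by linarith) (by linarith) hgc hg1 hy
    have vG := gside h5 h6 t0 (-e) c2 (-c3) hy hy2
    rw [eG] at vG
    have hIn := Pool.Agent.Lib_helper54.GC56.In_fourth ha h.herm hp0 h6
      (fun x z hx hz => Pool.Agent.Lib_helper64.G56.feyn6 hx hz hp0 h6) y
    have hF4 : p * (360 * bet p 6 * y ^ 4 * M + 120 * y ^ 6 * J) =
        6 * ∫ s in Ioi (-(2 * y)), F s * Wh (5 - p) y s := by
      rw [← eF, SS_SS, SS_SS, Pool.Agent.Lib_helper94.G56.ss_zero]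
      rw [← hIn]
      ring
    have hbet := bb_bet h5 h6
    have hu : ∀ s, |s| ≤ 2 * y → |F s - g s| ≤ K * s ^ 4 := by
      intro s hs
      have hs' : |s| ≤ δ' := hs.trans hyδ
      have hs1 : s < 1 := by
        have : |s| ≤ 1 / 2 := hs'.trans (min_le_left _ _)
        linarith [(abs_le.1 this).2]
      rw [hg, gm_gm hs1]
      exact hl s hs'
    have hu0 : ∀ s, 0 < s → 0 ≤ F s - g s := by
      intro s hs
      rcases lt_or_ge s 1 with h1 | h1
      · rw [hg, gm_gm h1]
        exact sub_nonneg.2 (hge s hs h1)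
      · rw [hg1 s h1, hF, fx_eq_zero hp0 h h1, sub_zero]
    have iu : IntegrableOn (fun s => (F s - g s) * Wh (5 - p) y s) (Ioi (-(2 * y))) := by
      have := (iF.sub iG).integrableOn (s := Ioi (-(2 * y)))
      refine this.congr (ae_of_all _ fun s => ?_)
      simp only [Pi.sub_apply]
      ring
    have hw := wh_low (q := 5 - p) (by linarith) (by linarith) hy hK0 hu hu0 iu
    have es : ∫ s in Ioi (-(2 * y)), (F s - g s) * Wh (5 - p) y s =
        (∫ s in Ioi (-(2 * y)), F s * Wh (5 - p) y s) -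
          ∫ s in Ioi (-(2 * y)), g s * Wh (5 - p) y s := by
      rw [← integral_sub iF.integrableOn iG.integrableOn]
      congr 1
      funext s
      ring
    rw [es, vG, show 5 - p + 1 = 6 - p by ring] at hw
    have hy4 : 0 < y ^ 4 := by positivity
    have hfin : 0 ≤ y ^ 4 * (360 * B * (M - T) +
        (20 * p * J - 120 * B * (t0 - (-e) + c2 - (-c3))) * y ^ 2 +
        256 * K * ((4 * y) ^ (6 - p) / (6 - p))) := by
      have e1 : ∫ s in Ioi (-(2 * y)), F s * Wh (5 - p) y s =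
          360 * B * M * y ^ 4 + 20 * p * J * y ^ 6 := by
        have : p * (360 * bet p 6 * y ^ 4 * M + 120 * y ^ 6 * J) =
            360 * y ^ 4 * M * (p * bet p 6) + 120 * p * y ^ 6 * J := by ring
        rw [this, hbet] at hF4
        linarith
      rw [e1] at hw
      have e2 : y ^ 4 * (360 * B * (M - T) +
          (20 * p * J - 120 * B * (t0 - (-e) + c2 - (-c3))) * y ^ 2 +
          256 * K * ((4 * y) ^ (6 - p) / (6 - p))) =
          (360 * B * M * y ^ 4 + 20 * p * J * y ^ 6 - (360 * y ^ 4 * B * T +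
            120 * y ^ 6 * B * (t0 - (-e) + c2 - (-c3)))) +
            256 * K * y ^ 4 * ((4 * y) ^ (6 - p) / (6 - p)) := by ring
      rw [e2]
      linarith
    by_contra hneg
    push Not at hneg
    have := mul_neg_of_pos_of_neg hy4 hneg
    linarith
  -- the limit
  have hlim : Tendsto (fun y : ℝ => 360 * B * (M - T) +
      (20 * p * J - 120 * B * (t0 - (-e) + c2 - (-c3))) * y ^ 2 +
        256 * K * ((4 * y) ^ (6 - p) / (6 - p))) (𝓝[>] 0) (𝓝 (360 * B * (M - T))) := by
    have c1 : ContinuousAt (fun y : ℝ => 360 * B * (M - T) +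
      (20 * p * J - 120 * B * (t0 - (-e) + c2 - (-c3))) * y ^ 2 +
        256 * K * ((4 * y) ^ (6 - p) / (6 - p))) 0 := by
      have hr : ContinuousAt (fun y : ℝ => (4 * y) ^ (6 - p)) 0 := by
        apply ContinuousAt.rpow_const (by fun_prop)
        right
        linarith
      exact (continuousAt_const.add (continuousAt_const.mul (by fun_prop))).add
        (continuousAt_const.mul (hr.div_const _))
    have c2' := c1.tendsto
    have z : (0 : ℝ) ^ (6 - p) = 0 := Real.zero_rpow (by intro h; linarith)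
    simp only [ne_eq, OfNat.ofNat_ne_zero, not_false_eq_true, zero_pow, mul_zero, add_zero, z,
      zero_div] at c2'
    exact c2'.mono_left nhdsWithin_le_nhds
  have hev : ∀ᶠ y : ℝ in 𝓝[>] 0, 0 ≤ 360 * B * (M - T) +
      (20 * p * J - 120 * B * (t0 - (-e) + c2 - (-c3))) * y ^ 2 +
        256 * K * ((4 * y) ^ (6 - p) / (6 - p)) := by
    have : Ioo (0 : ℝ) (min (δ' / 2) (1 / 2)) ∈ 𝓝[>] (0 : ℝ) :=
      Ioo_mem_nhdsGT (lt_min (by linarith) (by norm_num))
    filter_upwards [this] with y hy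
    exact main y hy.1 (by linarith [hy.2.trans_le (min_le_left _ _)])
      (hy.2.trans_le (min_le_right _ _))
  have hnn := ge_of_tendsto hlim hev
  have hMT : T ≤ M := by
    by_contra hc
    push Not at hc
    have : 360 * B * (M - T) < 0 := mul_neg_of_pos_of_neg (by positivity) (by linarith)
    linarith
  have hextra : 0 ≤ (p - 3) * (p - 4) / (p * (p - 1)) * c3 := by
    have h1 : 0 < p - 3 := by linarith
    have h2 : 0 < p - 4 := by linarith
    have h3 : 0 < p - 1 := by linarith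
    positivity
  have e9 : (p - 2) * (p - 3) / (2 * p * (p - 1)) * (2 * c2) =
      (p - 2) * (p - 3) / (p * (p - 1)) * c2 := by
    have h3 : p - 1 ≠ 0 := by intro h; linarith
    field_simp
  rw [e9]
  have e10 : T = t0 + (p - 2) / p * e + (p - 2) * (p - 3) / (p * (p - 1)) * c2 +
      (p - 3) * (p - 4) / (p * (p - 1)) * c3 := by rw [hT]; ring
  linarith

end Pool.Agent.RC.TR6
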